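import Pool.Agent.Lib.Pe46137.Sym.Defs

/-!
Switching networks as guarded networks, and networks that are invariant under some of the
permutations of a set of vertices.
-/

namespace Pool.Agent.Lib.Pe46137.SymP

open Pool.Agent.Lib.Pe46137.Sym

/-- a switching network, regarded as a guarded network: permanently closed contacts and contacts
labelled by a negated variable give decreasing properties, contacts labelled by a variable are
guarded by this variable alone -/
def guarded {V W : Type*} (N : SwitchingNetwork (V × V) W) : Network V W where
  source := N.source
  sink := N.sink
  free v w := {G | N.wire v w ∨ ∃ e, e ∉ G ∧ N.neg e v w}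
  guard e v w := {_G | N.pos e v w}
  free_lower _ _ := fun _ _ hba h => h.imp id fun ⟨e, he, h'⟩ => ⟨e, fun h'' => he (hba h''), h'⟩
  guard_lower _ _ _ := fun _ _ _ h => h

/-- every permutation in `H` of the vertices in `U` (the other vertices being fixed) extends to an
automorphism of the network -/
def InvariantUnder {V W : Type*} [DecidableEq V] (N : Network V W) (U : Finset V)
    (H : Subgroup (Equiv.Perm U)) : Prop :=
  ∀ π ∈ H, ∃ ρ : Equiv.Perm W, N.Lifts (Equiv.Perm.ofSubtype π) ρ

end Pool.Agent.Lib.Pe46137.SymP
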