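import Pool.Agent.Lib.Pe46137.SymP.Core

/-!
Supports of the states of a network that is invariant under a subgroup of small index, restriction
of networks to fewer vertices.
-/

namespace Pool.Agent.Lib.Pe46137.SymP

open Finset Equiv Pool.Agent.Lib.Pe46137.Sym

set_option linter.unusedSectionVars false

section

variable {V : Type*} [Fintype V] [DecidableEq V] {s t : V}
variable {W : Type*} [Fintype W]

/-- the element of the subgroup that moves the chosen representative to `π` -/
noncomputable def tail {G : Type*} [Group G] (H : Subgroup G) (π : G) : G :=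
  (Quotient.out (QuotientGroup.mk π : G ⧸ H))⁻¹ * π

theorem tail_mem {G : Type*} [Group G] (H : Subgroup G) (π : G) : tail H π ∈ H := by
  unfold tail
  exact QuotientGroup.eq.mp (QuotientGroup.out_eq' (QuotientGroup.mk π : G ⧸ H))

theorem inv_mul_of_mk_eq {G : Type*} [Group G] (H : Subgroup G) {π π' : G}
    (h : (QuotientGroup.mk π : G ⧸ H) = QuotientGroup.mk π') :
    π'⁻¹ * π = (tail H π')⁻¹ * tail H π := by
  unfold tail
  rw [h]
  group

open scoped Nat in
theorem exists_supports_index {N : Network V W} (H : Subgroup (Perm (Mov s t)))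
    (hH : ∀ π ∈ H, ∃ ρ, N.Lifts (Perm.ofSubtype π) ρ) {r y : ℕ}
    (hW : H.index * Fintype.card W < (Fintype.card (Mov s t)).choose r)
    (hy : H.index * Fintype.card W < y !)
    (h1 : y * (r + 2) ≤ Fintype.card (Mov s t))
    (h2 : Fintype.card (Mov s t) * ((r + 1) * (r + 2)) ≤
      (Fintype.card (Mov s t) - r) * (Fintype.card (Mov s t) - (r + 1))) (v : W) :
    ∃ T : Finset (Mov s t), T.card < r ∧ ∀ a b c, a ∉ T → b ∉ T → c ∉ T → a ≠ b → b ≠ c →
      a ≠ c → cyc a b c ∈ stab N v := by
  classical
  letI : Fintype (Perm (Mov s t) ⧸ H) := Fintype.ofFinite _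
  have hcard : Fintype.card ((Perm (Mov s t) ⧸ H) × W) = H.index * Fintype.card W := by
    rw [Fintype.card_prod, Subgroup.index, Nat.card_eq_fintype_card]
  choose! ρ hρ using hH
  refine support_theorem (stab N v)
    (fun π => ((QuotientGroup.mk π : Perm (Mov s t) ⧸ H), ρ (tail H π) v)) ?_
    (by rw [hcard]; exact hW) (by rw [hcard]; exact hy) h1 h2
  intro π π' h
  rw [Prod.mk.injEq] at h
  rw [inv_mul_of_mk_eq H h.1]
  refine ⟨(ρ (tail H π'))⁻¹ * ρ (tail H π), ?_, ?_⟩
  · rw [map_mul, map_inv]
    exact (hρ _ (tail_mem H π')).inv.mul (hρ _ (tail_mem H π))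
  · rw [Perm.mul_apply, h.2, inv_app]

end

section restrict

variable {V V' W : Type*}

/-- the image of a digraph -/
def img (j : V' → V) (G : Set (V' × V')) : Set (V × V) := {e | ∃ a ∈ G, e = (j a.1, j a.2)}

theorem img_mono (j : V' → V) {G G' : Set (V' × V')} (h : G ≤ G') : img j G ≤ img j G' := by
  rintro e ⟨a, ha, he⟩
  exact ⟨a, h ha, he⟩

/-- the restriction of a network to fewer vertices -/
def restrict (N : Network V W) (j : V' → V) : Network V' W where
  source := N.source
  sink := N.sink
  free v w := {G | img j G ∈ N.free v w}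
  guard e v w := {G | img j G ∈ N.guard (j e.1, j e.2) v w}
  free_lower v w := fun _ _ hab ha => N.free_lower v w (img_mono j hab) ha
  guard_lower e v w := fun _ _ hab ha => N.guard_lower _ v w (img_mono j hab) ha

theorem restrict_closed (N : Network V W) (j : V' → V) (G : Set (V' × V')) :
    (restrict N j).Closed G = N.Closed (img j G) := by
  funext v w
  refine propext (or_congr Iff.rfl ⟨?_, ?_⟩)
  · rintro ⟨e, he, hg⟩
    exact ⟨(j e.1, j e.2), ⟨e, he, rfl⟩, hg⟩
  · rintro ⟨_, ⟨e, he, rfl⟩, hg⟩
    exact ⟨e, he, hg⟩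

theorem restrict_accepts (N : Network V W) (j : V' → V) (G : Set (V' × V')) :
    (restrict N j).Accepts G ↔ N.Accepts (img j G) := by
  unfold Network.Accepts
  rw [restrict_closed]
  rfl

theorem ren_img {j : V' → V} (hj : Function.Injective j) {σ : Perm V} {π : Perm V'}
    (h : ∀ a, j (π a) = σ (j a)) (G : Set (V' × V')) :
    {e : V × V | (σ e.1, σ e.2) ∈ img j G} = img j {e | (π e.1, π e.2) ∈ G} := by
  ext ⟨x, y⟩
  constructor
  · rintro ⟨⟨a, b⟩, hab, he⟩
    simp only [Prod.mk.injEq] at he
    refine ⟨(π⁻¹ a, π⁻¹ b), ?_, ?_⟩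
    · change (π (π⁻¹ a), π (π⁻¹ b)) ∈ G
      rw [app_inv, app_inv]
      exact hab
    · have e1 : x = j (π⁻¹ a) := by
        apply σ.injective
        rw [he.1, ← h, app_inv]
      have e2 : y = j (π⁻¹ b) := by
        apply σ.injective
        rw [he.2, ← h, app_inv]
      rw [e1, e2]
  · rintro ⟨⟨a, b⟩, hab, he⟩
    simp only [Prod.mk.injEq] at he
    refine ⟨(π a, π b), hab, ?_⟩
    rw [he.1, he.2]
    simp only [h]

theorem restrict_lifts {N : Network V W} {j : V' → V} (hj : Function.Injective j) {σ : Perm V}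
    {π : Perm V'} (h : ∀ a, j (π a) = σ (j a)) {ρ : Perm W} (hρ : N.Lifts σ ρ) :
    (restrict N j).Lifts π ρ := by
  refine ⟨hρ.source, hρ.sink, fun v w G => ?_, fun e v w G => ?_⟩
  · have := hρ.free v w (img j G)
    rw [ren_img hj h] at this
    exact this
  · have := hρ.guard (j e.1, j e.2) v w (img j G)
    rw [ren_img hj h] at this
    change img j G ∈ N.guard (j (π e.1), j (π e.2)) (ρ v) (ρ w) ↔ _
    rw [h, h]
    exact this

theorem reachable_img {j : V' → V} (hj : Function.Injective j) {G : Set (V' × V')} {a : V'} {y : V} :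
    Reachable (img j G) (j a) y ↔ ∃ b, y = j b ∧ Reachable G a b := by
  constructor
  · intro h
    induction h with
    | refl => exact ⟨a, rfl, Relation.ReflTransGen.refl⟩
    | tail _ h ih =>
      obtain ⟨b, rfl, hb⟩ := ih
      obtain ⟨⟨c, d⟩, hcd, he⟩ := h
      simp only [Prod.mk.injEq] at he
      have := hj he.1
      subst this
      exact ⟨d, he.2, hb.tail hcd⟩
  · rintro ⟨b, rfl, h⟩
    induction h with
    | refl => exact Relation.ReflTransGen.refl
    | @tail c d _ h ih => exact ih.tail ⟨(c, d), h, rfl⟩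

theorem acyclic_img {j : V' → V} (hj : Function.Injective j) {G : Set (V' × V')} (h : Acyclic G) :
    Acyclic (img j G) := by
  have key : ∀ x y, Relation.TransGen (fun a b => (a, b) ∈ img j G) x y →
      ∃ a b, x = j a ∧ y = j b ∧ Relation.TransGen (fun a b => (a, b) ∈ G) a b := by
    intro x y hxy
    induction hxy with
    | single h =>
      obtain ⟨⟨c, d⟩, hcd, he⟩ := h
      simp only [Prod.mk.injEq] at he
      exact ⟨c, d, he.1, he.2, Relation.TransGen.single hcd⟩
    | tail _ h ih =>
      obtain ⟨a, b, ha, hb, hab⟩ := ih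
      obtain ⟨⟨c, d⟩, hcd, he⟩ := h
      simp only [Prod.mk.injEq] at he
      have : b = c := hj (hb.symm.trans he.1)
      subst this
      exact ⟨a, d, ha, he.2, hab.tail hcd⟩
  intro v hv
  obtain ⟨a, b, ha, hb, hab⟩ := key v v hv
  have : a = b := hj (ha.symm.trans hb)
  subst this
  exact h a hab

end restrict

end Pool.Agent.Lib.Pe46137.SymP
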