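import Pool.Agent.Lib.Pe46137.SymP.Param
import Pool.Agent.Lib.Pe46137.Sym.Final

/-!
The lower bound for networks invariant under a large subgroup of the permutations of `m` vertices.
-/

namespace Pool.Agent.Lib.Pe46137.SymP

open Finset Equiv Pool.Agent.Lib.Pe46137.Sym

/-- lower bound for binomial coefficients -/
theorem ratio_pow_le_choose (r n : ℕ) :
    (((n + 1 - r : ℕ) : ℝ) / r) ^ r ≤ n.choose r := by
  refine le_trans ?_ (Nat.pow_le_choose (α := ℝ) r n)
  rw [div_pow]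
  rcases Nat.eq_zero_or_pos r with h | h
  · subst h; simp
  · have h4 : (r.factorial : ℝ) ≤ (r : ℝ) ^ r := by
      exact_mod_cast Nat.factorial_le_pow r
    have h5 : (0 : ℝ) < r.factorial := by exact_mod_cast Nat.factorial_pos _
    gcongr

open scoped Nat in
/-- a subgroup of small index contains all three-cycles outside a small set -/
theorem small_index {Ω : Type*} [Fintype Ω] [DecidableEq Ω] (H : Subgroup (Perm Ω)) {q : ℕ}
    (hq : 32 ≤ q) (hm : 9 * q ^ 2 ≤ Fintype.card Ω)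
    (hidx : (H.index : ℝ) < 2 ^ (3 * q + 3)) :
    ∃ T : Finset Ω, T.card < q - 2 ∧ ∀ a b c, a ∉ T → b ∉ T → c ∉ T → a ≠ b → b ≠ c → a ≠ c →
      cyc a b c ∈ H := by
  classical
  let _ : Fintype (Perm Ω ⧸ H) := Fintype.ofFinite _
  have hcard : Fintype.card (Perm Ω ⧸ H) = H.index := by
    rw [Subgroup.index, Nat.card_eq_fintype_card]
  have hidx' : H.index < 2 ^ (3 * q + 3) := by exact_mod_cast hidx
  set m := Fintype.card Ω with hmdef
  refine support_theorem H (fun π => (QuotientGroup.mk π : Perm Ω ⧸ H)) ?_ (r := q - 2)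
    (y := m / q) ?_ ?_ ?_ ?_
  · intro π π' h
    exact QuotientGroup.eq.mp h.symm
  · rw [hcard]
    have h1 : ((2 : ℝ) ^ (3 * q + 3)) ≤ (m.choose (q - 2) : ℝ) := by
      refine le_trans ?_ (ratio_pow_le_choose (q - 2) m)
      have h2 : (2 : ℝ) ^ 8 ≤ ((m + 1 - (q - 2) : ℕ) : ℝ) / ((q - 2 : ℕ) : ℝ) := by
        have hpos : (0 : ℝ) < ((q - 2 : ℕ) : ℝ) := by
          have : 0 < q - 2 := by omega
          exact_mod_cast this
        rw [le_div_iff₀ hpos]
        have h3 : 2 ^ 8 * (q - 2) ≤ m + 1 - (q - 2) := by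
          have h4 : 9 * (32 * q) ≤ 9 * q ^ 2 := by
            rw [pow_two]
            exact Nat.mul_le_mul_left _ (Nat.mul_le_mul_right _ hq)
          omega
        exact_mod_cast h3
      calc (2 : ℝ) ^ (3 * q + 3) ≤ 2 ^ (8 * (q - 2)) :=
            pow_le_pow_right₀ (by norm_num) (by omega)
        _ = ((2 : ℝ) ^ 8) ^ (q - 2) := by rw [pow_mul]
        _ ≤ _ := by gcongr
    have h2 : 2 ^ (3 * q + 3) ≤ m.choose (q - 2) := by exact_mod_cast h1
    exact lt_of_lt_of_le hidx' h2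
  · rw [hcard]
    have h1 : 9 * q ≤ m / q := by
      rw [Nat.le_div_iff_mul_le (by omega)]
      calc 9 * q * q = 9 * q ^ 2 := by ring
        _ ≤ m := hm
    have h2 : 2 ^ (3 * q + 3) ≤ 2 ^ (m / q - 1) := Nat.pow_le_pow_right (by norm_num) (by omega)
    have h3 := two_pow_pred_le_factorial (m / q)
    exact lt_of_lt_of_le hidx' (le_trans h2 h3)
  · have : q - 2 + 2 = q := by omega
    rw [this]
    exact Nat.div_mul_le_self _ _
  · have h1 := quad (N := m) (d := q - 1) (by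
      have : q - 1 + 1 = q := by omega
      rw [this]
      calc 8 * q ^ 2 ≤ 9 * q ^ 2 := Nat.mul_le_mul_right _ (by norm_num)
        _ ≤ m := hm)
    have e1 : q - 2 + 1 = q - 1 := by omega
    have e2 : q - 2 + 2 = q - 1 + 1 := by omega
    have e3 : q - 1 - 1 = q - 2 := by omega
    rw [e1, e2]
    rw [e3] at h1
    exact h1

theorem lower_U (ε : ℝ) (hε : 0 < ε) : ∃ m₀ : ℕ, ∀ (n : ℕ) (s t : Fin n), s ≠ t →
    ∀ U : Finset (Fin n), s ∉ U → t ∉ U → m₀ ≤ U.card → ∀ H : Subgroup (Perm U),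
      (H.index : ℝ) ≤ 2 ^ Real.sqrt U.card → ∀ (W : Type) [Fintype W] (N : Network (Fin n) W),
      InvariantUnder N U H →
      (∀ G : Set (Fin n × Fin n), Acyclic G →
        (∀ e ∈ G, e.1 ∈ insert s (insert t U) ∧ e.2 ∈ insert s (insert t U)) →
        (N.Accepts G ↔ Reachable G s t)) →
      (U.card : ℝ) ^ ((1 - ε) * Real.logb 2 U.card) ≤ Fintype.card W := by
  set δ : ℝ := min ε 1 / 16 with hδ
  have hδ0 : 0 < δ := by
    have : 0 < min ε 1 := lt_min hε one_pos
    rw [hδ]; positivity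
  have hδ8 : δ ≤ 1 / 8 := by
    have : min ε 1 ≤ 1 := min_le_right _ _
    rw [hδ]; linarith
  have hδε : 16 * δ ≤ ε := by
    have : min ε 1 ≤ ε := min_le_left _ _
    rw [hδ]; linarith
  obtain ⟨n₀, hn₀⟩ := growth δ hδ0
  refine ⟨max (2 * n₀) 10000, fun n s t hst U hs ht hU H hH W _ N hN hdec => ?_⟩
  set m := U.card with hm
  have hm1 : 10000 ≤ m := le_trans (le_max_right _ _) hU
  have hm2 : 2 * n₀ ≤ m := le_trans (le_max_left _ _) hU
  -- the first step
  set k := Nat.sqrt m with hk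
  have hk1 : k * k ≤ m := Nat.sqrt_le m
  have hk2 : m < (k + 1) * (k + 1) := Nat.lt_succ_sqrt m
  have hk3 : 100 ≤ k := by
    rw [hk, Nat.le_sqrt]
    omega
  set q := k / 3 with hq
  have hq1 : 3 * q ≤ k := by omega
  have hq2 : k ≤ 3 * q + 2 := by omega
  have hq3 : 32 ≤ q := by omega
  have hqm : 9 * q ^ 2 ≤ m := by
    calc 9 * q ^ 2 = (3 * q) * (3 * q) := by ring
      _ ≤ k * k := Nat.mul_le_mul hq1 hq1
      _ ≤ m := hk1
  have hidx : (H.index : ℝ) < 2 ^ (3 * q + 3) := by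
    refine lt_of_le_of_lt hH ?_
    have h1 : Real.sqrt m < (3 * q + 3 : ℕ) := by
      rw [Real.sqrt_lt' (by positivity)]
      have h2 : m < (3 * q + 3) * (3 * q + 3) :=
        lt_of_lt_of_le hk2 (Nat.mul_le_mul (by omega) (by omega))
      rw [pow_two]
      exact_mod_cast h2
    rw [← Real.rpow_natCast]
    exact Real.rpow_lt_rpow_of_exponent_lt (by norm_num) h1
  obtain ⟨T, hTc, hT⟩ := small_index H hq3 (by rw [Fintype.card_coe]; exact hqm) hidx
  -- the second step
  set n' := m - T.card + 2 with hn'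
  have hqq : 32 * q ≤ q ^ 2 := by rw [pow_two]; exact Nat.mul_le_mul_right _ hq3
  have hTm : 2 * T.card ≤ m := by omega
  have hn'm : m ≤ 2 * n' := by omega
  obtain ⟨hg1, hg2⟩ := hn₀ n' (by omega)
  set L' := Real.logb 2 n' with hL'
  set L := Real.logb 2 m with hL
  have hmpos : (0 : ℝ) < m := by
    have : 0 < m := by omega
    exact_mod_cast this
  have hn'pos : (0 : ℝ) < n' := by
    have : 0 < n' := by omega
    exact_mod_cast this
  have hn'L : (n' : ℝ) = (2 : ℝ) ^ L' := (Real.rpow_logb (by norm_num) (by norm_num) hn'pos).symm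
  have hmL : (m : ℝ) = (2 : ℝ) ^ L := (Real.rpow_logb (by norm_num) (by norm_num) hmpos).symm
  obtain ⟨d, hd2, hgrid, hfac, hquad, hbin⟩ := choice hδ0 hδ8 hn'L rfl hg1 hg2
  have hn'2 : n' - 2 = m - T.card := by omega
  have hlow := lower_U_param hst hs ht T H hT N hN hdec (l := 2 ^ d) (p := 2 * d) (d := d)
    (y := (n' - 2) / (d + 1)) (m := n' - 2) hn'2 hgrid hd2 le_rfl le_rfl
    (by
      refine le_trans (Nat.choose_le_pow _ _) ?_
      have h1 : (n' - 2) ^ (d - 1) ≤ n' ^ (d - 1) := Nat.pow_le_pow_left (Nat.sub_le _ _) _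
      have h2 : n' ^ (d - 1) ≤ 2 ^ ((n' - 2) / (d + 1) - 1) := by exact_mod_cast hfac
      exact le_trans h1 (le_trans h2 (two_pow_pred_le_factorial _)))
    (Nat.div_mul_le_self _ _) (quad hquad)
  have h1 : (((n' - 2).choose (d - 1) : ℕ) : ℝ) ≤ 2 * Fintype.card W := by exact_mod_cast hlow
  have h2 : (n' : ℝ) ^ ((1 - 8 * δ) * L') ≤ 2 * Fintype.card W :=
    le_trans hbin (le_trans (ratio_pow_le_choose _ _) h1)
  have hLL : L - 1 ≤ L' := by
    rw [hL', Real.le_logb_iff_rpow_le (by norm_num) hn'pos, Real.rpow_sub (by norm_num), ← hmL,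
      Real.rpow_one]
    have : (m : ℝ) ≤ 2 * n' := by exact_mod_cast hn'm
    linarith
  have hLm : 100 / δ ≤ L + 1 := by
    have h3 : L' ≤ L + 1 := by
      rw [hL', Real.logb_le_iff_le_rpow (by norm_num) hn'pos, Real.rpow_add (by norm_num), ← hmL,
        Real.rpow_one]
      have : n' ≤ m * 2 := by omega
      exact_mod_cast this
    linarith
  have hδL : 1 ≤ δ * L := by
    rw [div_le_iff₀ hδ0] at hLm
    have : (L + 1) * δ = δ * L + δ := by ring
    linarith
  have hL0 : 1 ≤ L := by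
    have h5 : δ * L ≤ 1 * L ∨ L < 0 := by
      by_cases h : 0 ≤ L
      · left
        exact mul_le_mul_of_nonneg_right (by linarith) h
      · right; linarith
    rcases h5 with h5 | h5
    · linarith
    · have : δ * L < 0 := mul_neg_of_pos_of_neg hδ0 h5
      linarith
  have h6 : (m : ℝ) ^ ((1 - ε) * L) * 2 ≤ (n' : ℝ) ^ ((1 - 8 * δ) * L') := by
    have h7 : (2 : ℝ) ^ (L * ((1 - ε) * L) + 1) ≤ (2 : ℝ) ^ (L' * ((1 - 8 * δ) * L')) := by
      refine Real.rpow_le_rpow_of_exponent_le (by norm_num) ?_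
      have h8 : (L - 1) * (L - 1) ≤ L' * L' := by
        apply mul_self_le_mul_self (by linarith) hLL
      have h9 : (1 - 8 * δ) * ((L - 1) * (L - 1)) ≤ (1 - 8 * δ) * (L' * L') :=
        mul_le_mul_of_nonneg_left h8 (by linarith)
      have h10 : L' * ((1 - 8 * δ) * L') = (1 - 8 * δ) * (L' * L') := by ring
      have h11 : (1 - 8 * δ) * ((L - 1) * (L - 1)) - (L * ((1 - ε) * L) + 1) =
          (ε - 16 * δ) * (L * L) + 8 * (δ * L - 1) * L + 6 * L + 8 * δ * (2 * L - 1) := by ring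
      have h12 : 0 ≤ (ε - 16 * δ) * (L * L) := by
        apply mul_nonneg (by linarith) (by positivity)
      have h13 : 0 ≤ 8 * (δ * L - 1) * L := by
        apply mul_nonneg (by linarith) (by linarith)
      have h14 : 0 ≤ 8 * δ * (2 * L - 1) := by
        apply mul_nonneg (by positivity) (by linarith)
      linarith
    have h15 : (m : ℝ) ^ ((1 - ε) * L) * 2 = (2 : ℝ) ^ (L * ((1 - ε) * L) + 1) := by
      rw [hmL, ← Real.rpow_mul (by norm_num), Real.rpow_add (by norm_num), Real.rpow_one]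
    have h16 : (n' : ℝ) ^ ((1 - 8 * δ) * L') = (2 : ℝ) ^ (L' * ((1 - 8 * δ) * L')) := by
      rw [hn'L, ← Real.rpow_mul (by norm_num)]
    rw [h15, h16]
    exact h7
  linarith

end Pool.Agent.Lib.Pe46137.SymP
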