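import Pool.Agent.Lib.Pe46137.SymP.Defs
import Pool.Agent.Lib.Pe46137.SymP.Index

/-!
The lower bound with parameters.
-/

namespace Pool.Agent.Lib.Pe46137.SymP

open Finset Equiv Pool.Agent.Lib.Pe46137.Sym

set_option linter.unusedSectionVars false

theorem index_le_two {Ω : Type*} [Fintype Ω] [DecidableEq Ω] (H : Subgroup (Perm Ω))
    (h : ∀ a b c, a ≠ b → b ≠ c → a ≠ c → cyc a b c ∈ H) : H.index ≤ 2 := by
  have hle : alternatingGroup Ω ≤ H := by
    rw [← Equiv.Perm.closure_three_cycles_eq_alternating, Subgroup.closure_le]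
    intro σ hσ
    have hσ' : Equiv.Perm.IsThreeCycle σ := hσ
    obtain ⟨a, ha⟩ : σ.support.Nonempty := by
      rw [← card_pos, hσ'.card_support]
      norm_num
    have h1 := hσ'.eq_swap_mul_swap_iff_mem_support.mpr ha
    have h2 := hσ'.nodup_iff_mem_support.mpr ha
    simp only [List.nodup_cons, List.mem_cons, List.not_mem_nil, or_false, not_or] at h2
    have h3 := h a (σ a) (σ (σ a)) h2.1.1 h2.2.1 h2.1.2
    unfold cyc at h3
    rw [← h1] at h3
    exact h3
  have h1 := Subgroup.index_antitone hle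
  rcases subsingleton_or_nontrivial Ω with h2 | h2
  · rw [alternatingGroup.index_eq_one] at h1
    omega
  · rw [alternatingGroup.index_eq_two] at h1
    exact h1

section

variable {V : Type*} [Fintype V] [DecidableEq V] {s t : V}
variable {W : Type*} [Fintype W]

/-- the renamings that extend to an automorphism -/
def liftGroup (s t : V) (N : Network V W) : Subgroup (Perm (Mov s t)) where
  carrier := {π | ∃ ρ, N.Lifts (Perm.ofSubtype π) ρ}
  mul_mem' := by
    rintro π π' ⟨ρ, h1⟩ ⟨ρ', h1'⟩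
    refine ⟨ρ * ρ', ?_⟩
    rw [map_mul]; exact h1.mul h1'
  one_mem' := ⟨1, by rw [map_one]; exact lifts_one⟩
  inv_mem' := by
    rintro π ⟨ρ, h1⟩
    refine ⟨ρ⁻¹, ?_⟩
    rw [map_inv]; exact h1.inv

open scoped Nat in
/-- invariance under all even permutations of the movable vertices -/
theorem lower_alt {l p d y : ℕ} (ι : Fin l × Fin (2 * p) ↪ Mov s t) (hst : s ≠ t) (hd : 2 ≤ d)
    (hl : 2 ^ d ≤ l) (hp : 2 * d ≤ p) (N : Network V W)
    (hN : ∀ a b c : Mov s t, a ≠ b → b ≠ c → a ≠ c → ∃ ρ, N.Lifts (Perm.ofSubtype (cyc a b c)) ρ)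
    (hdec : ∀ G : Set (V × V), Acyclic G → (N.Accepts G ↔ Reachable G s t))
    (hy : (Fintype.card (Mov s t)).choose (d - 1) ≤ y !)
    (h1 : y * (d + 1) ≤ Fintype.card (Mov s t))
    (h2 : Fintype.card (Mov s t) * (d * (d + 1)) ≤
      (Fintype.card (Mov s t) - (d - 1)) * (Fintype.card (Mov s t) - d)) :
    (Fintype.card (Mov s t)).choose (d - 1) ≤ 2 * Fintype.card W := by
  by_contra hc
  push Not at hc
  have hidx : (liftGroup s t N).index ≤ 2 := index_le_two _ hN
  have hd1 : d - 1 + 1 = d := by omega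
  have hd2 : d - 1 + 2 = d + 1 := by omega
  have h3 : (liftGroup s t N).index * Fintype.card W ≤ 2 * Fintype.card W :=
    Nat.mul_le_mul_right _ hidx
  refine lower_core ι hst hd hl hp N hdec fun v => ?_
  exact exists_supports_index (liftGroup s t N) (fun π hπ => hπ) (r := d - 1) (y := y)
    (lt_of_le_of_lt h3 hc) (lt_of_lt_of_le (lt_of_le_of_lt h3 hc) hy)
    (by rw [hd2]; exact h1) (by rw [hd1, hd2]; exact h2) v

end

section

variable {n : ℕ} {s t : Fin n} {W : Type*} [Fintype W]

/-- the vertices that are kept -/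
abbrev Kept (s t : Fin n) (U : Finset (Fin n)) (T : Finset U) :=
  {x : Fin n // x = s ∨ x = t ∨ ∃ h : x ∈ U, (⟨x, h⟩ : U) ∉ T}

/-- the movable vertices among them -/
def keptEquiv {U : Finset (Fin n)} (hs : s ∉ U) (ht : t ∉ U) (T : Finset U) :
    Mov (⟨s, Or.inl rfl⟩ : Kept s t U T) ⟨t, Or.inr (Or.inl rfl)⟩ ≃ {u : U // u ∉ T} where
  toFun z :=
    have h : ∃ h : (z.1 : Fin n) ∈ U, (⟨(z.1 : Fin n), h⟩ : U) ∉ T := by
      rcases z.1.2 with h | h | h
      · exact absurd (Subtype.ext h) z.2.1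
      · exact absurd (Subtype.ext h) z.2.2
      · exact h
    ⟨⟨(z.1 : Fin n), h.1⟩, h.2⟩
  invFun u := ⟨⟨(u.1 : Fin n), Or.inr (Or.inr ⟨u.1.2, u.2⟩)⟩, by
    constructor
    · intro h
      have : (u.1 : Fin n) = s := congrArg Subtype.val h
      exact hs (this ▸ u.1.2)
    · intro h
      have : (u.1 : Fin n) = t := congrArg Subtype.val h
      exact ht (this ▸ u.1.2)⟩
  left_inv z := by
    apply Subtype.ext
    apply Subtype.ext
    rfl
  right_inv u := by
    apply Subtype.ext
    apply Subtype.ext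
    rfl

theorem card_kept {U : Finset (Fin n)} (hs : s ∉ U) (ht : t ∉ U) (T : Finset U) :
    Fintype.card (Mov (⟨s, Or.inl rfl⟩ : Kept s t U T) ⟨t, Or.inr (Or.inl rfl)⟩) =
      U.card - T.card := by
  rw [Fintype.card_congr (keptEquiv hs ht T), Fintype.card_subtype_compl]
  simp

theorem ofSubtype_cyc {α : Type*} [DecidableEq α] {p : α → Prop} [DecidablePred p]
    (a b c : Subtype p) : Perm.ofSubtype (cyc a b c) = cyc (a : α) (b : α) (c : α) := by
  unfold cyc
  rw [map_mul, Perm.ofSubtype_swap_eq, Perm.ofSubtype_swap_eq]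

theorem cyc_map {α β : Type*} [DecidableEq α] [DecidableEq β] {j : α → β}
    (hj : Function.Injective j) (a b c x : α) : j (cyc a b c x) = cyc (j a) (j b) (j c) (j x) := by
  unfold cyc
  rw [Perm.mul_apply, Perm.mul_apply, hj.swap_apply, hj.swap_apply]

open scoped Nat in
theorem lower_U_param (hst : s ≠ t) {U : Finset (Fin n)} (hs : s ∉ U) (ht : t ∉ U) (T : Finset U)
    (H : Subgroup (Perm U))
    (hT : ∀ a b c, a ∉ T → b ∉ T → c ∉ T → a ≠ b → b ≠ c → a ≠ c → cyc a b c ∈ H)
    (N : Network (Fin n) W) (hN : InvariantUnder N U H)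
    (hdec : ∀ G : Set (Fin n × Fin n), Acyclic G →
      (∀ e ∈ G, e.1 ∈ insert s (insert t U) ∧ e.2 ∈ insert s (insert t U)) →
      (N.Accepts G ↔ Reachable G s t))
    {l p d y m : ℕ} (hm : m = U.card - T.card) (hgrid : l * (2 * p) ≤ m) (hd : 2 ≤ d)
    (hl : 2 ^ d ≤ l) (hp : 2 * d ≤ p)
    (hy : m.choose (d - 1) ≤ y !)
    (h1 : y * (d + 1) ≤ m)
    (h2 : m * (d * (d + 1)) ≤ (m - (d - 1)) * (m - d)) :
    m.choose (d - 1) ≤ 2 * Fintype.card W := by
  set s' : Kept s t U T := ⟨s, Or.inl rfl⟩ with hs'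
  set t' : Kept s t U T := ⟨t, Or.inr (Or.inl rfl)⟩ with ht'
  have hst' : s' ≠ t' := fun h => hst (congrArg Subtype.val h)
  have hcard : Fintype.card (Mov s' t') = m := by rw [hm]; exact card_kept hs ht T
  have hj : Function.Injective (Subtype.val : Kept s t U T → Fin n) := Subtype.val_injective
  obtain ⟨ι⟩ : Nonempty (Fin l × Fin (2 * p) ↪ Mov s' t') := by
    refine Function.Embedding.nonempty_of_card_le ?_
    rw [Fintype.card_prod, Fintype.card_fin, Fintype.card_fin, hcard]
    exact hgrid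
  have := lower_alt ι hst' hd hl hp (restrict N Subtype.val) ?_ ?_ (y := y)
    (by rw [hcard]; exact hy) (by rw [hcard]; exact h1) (by rw [hcard]; exact h2)
  · rwa [hcard] at this
  · intro a b c hab hbc hac
    set f := keptEquiv hs ht T with hf
    have hH : cyc (f a).1 (f b).1 (f c).1 ∈ H := by
      refine hT _ _ _ (f a).2 (f b).2 (f c).2 ?_ ?_ ?_
      · exact fun h => hab (f.injective (Subtype.ext h))
      · exact fun h => hbc (f.injective (Subtype.ext h))
      · exact fun h => hac (f.injective (Subtype.ext h))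
    obtain ⟨ρ, hρ⟩ := hN _ hH
    refine ⟨ρ, restrict_lifts hj ?_ hρ⟩
    intro x
    rw [ofSubtype_cyc, ofSubtype_cyc]
    exact cyc_map hj _ _ _ _
  · intro G hG
    rw [restrict_accepts, hdec _ (acyclic_img hj hG)]
    · have := reachable_img hj (G := G) (a := s') (y := t)
      rw [this]
      constructor
      · rintro ⟨b, hb, h⟩
        have : b = t' := Subtype.ext hb.symm
        rw [← this]; exact h
      · intro h
        exact ⟨t', rfl, h⟩
    · rintro e ⟨⟨a, b⟩, _, rfl⟩
      have key : ∀ x : Kept s t U T, (x : Fin n) ∈ insert s (insert t U) := by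
        intro x
        rw [mem_insert, mem_insert]
        rcases x.2 with h | h | ⟨h, _⟩
        · exact Or.inl h
        · exact Or.inr (Or.inl h)
        · exact Or.inr (Or.inr h)
      exact ⟨key a, key b⟩

end

end Pool.Agent.Lib.Pe46137.SymP
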